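import Pool.Agent.Run7.h90.AU.Slow

set_option autoImplicit false

/-!
# Simultaneous decompositions `E_j = q + q_j` of several even numbers with a common summand `q` in a thin set

Let `p` be a large prime and `u n = c_1 g_1 ^ n + ... + c_k g_k ^ n` modulo `p`, where `c ≠ 0` and the orders of the `g_i`
and of the quotients `g_i / g_j` are at least `p ^ η`. The common summand `q` is congruent to one of
`u 0, ..., u (N - 1)` modulo `p`, `N ≥ p ^ η`, and lies in an interval of length `L ≥ p ^ (1 - δ)`. The theorem is uniform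
in all `m`-tuples of distinct even numbers `E_j ≤ p ^ A` for which no prime divides `q ∏ (E_j - q)` for all `q`.

Proof: the exponential sums over the recurrence are smaller than `N` by a power of `p` (theorem of Bourgain, Glibichuk and
Konyagin and its extension to vectors, `Agent/Run7/h823/BK9`), so the integers `q` are equidistributed in the residue
classes modulo all integers up to `p ^ δ`; then the fundamental lemma of the sieve, uniformly in the polynomial, and a
uniform comparison of the sieve product with the singular series (`Agent/Run7/h90/AU`).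
-/

namespace Pool.Agent.Results.MP_dd84fd_nt.CommonSummands

open Finset Filter Topology
open scoped Classical

/-- The number of the residue classes `q` modulo `l` with `q ∏ (E_j - q) ≡ 0`. -/
noncomputable def w {m : ℕ} (E : Fin m → ℕ) (l : ℕ) : ℕ :=
  ((range l).filter fun q : ℕ => (l : ℤ) ∣ q * ∏ j, ((E j : ℤ) - q)).card

/-- The partial products, over the primes up to `z`, of the singular series. -/
noncomputable def partialSingular {m : ℕ} (E : Fin m → ℕ) (z : ℕ) : ℝ :=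
  ∏ l ∈ (range (z + 1)).filter Nat.Prime, ((1 - (w E l : ℝ) / l) / (1 - 1 / (l : ℝ)) ^ (m + 1))

/-- Distinct positive even numbers `E_j ≤ Q`; no prime divides `q ∏ (E_j - q)` for all integers `q`. -/
def Admissible {m : ℕ} (Q : ℝ) (E : Fin m → ℕ) : Prop :=
  Function.Injective E ∧ (∀ j, E j ≠ 0 ∧ 2 ∣ E j ∧ (E j : ℝ) ≤ Q) ∧
    ∀ l : ℕ, l.Prime → ∃ q : ℤ, ¬ (l : ℤ) ∣ q * ∏ j, ((E j : ℤ) - q)

/-- The recurrence `u n = c_1 g_1 ^ n + ... + c_k g_k ^ n` modulo `p`. -/
def recurrence (p k : ℕ) (c : Fin k → ZMod p) (g : Fin k → (ZMod p)ˣ) (n : ℕ) : ZMod p :=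
  ∑ i, c i * (g i : ZMod p) ^ n

/-- The standing assumptions on the recurrence, on `N` and on `L`. -/
def Setting (η δ : ℝ) (p k : ℕ) (c : Fin k → ZMod p) (g : Fin k → (ZMod p)ˣ) (N L : ℕ) : Prop :=
  c ≠ 0 ∧ (∀ i, (p : ℝ) ^ η ≤ orderOf (g i)) ∧ (∀ i j, i ≠ j → (p : ℝ) ^ η ≤ orderOf (g i / g j)) ∧
    (p : ℝ) ^ η ≤ N ∧ (p : ℝ) ^ (1 - δ) ≤ L

/-- The number of the `q` with `M < q ≤ M + L`, `q < E_j` for all `j`, and the property `P` of `q` and the `E_j - q`, each
counted with the number of the `n < N` for which `q ≡ u n` modulo `p`. -/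
noncomputable def decompositions {m : ℕ} (p : ℕ) (u : ℕ → ZMod p) (E : Fin m → ℕ) (N M L : ℕ)
    (P : ℕ → (Fin m → ℕ) → Prop) : ℕ :=
  ((range N ×ˢ Ioc M (M + L)).filter fun x =>
    ((x.2 : ℕ) : ZMod p) = u x.1 ∧ (∀ j, x.2 < E j) ∧ P x.2 (fun j => E j - x.2)).card

/-- The integer `n ≠ 0` has at most `r` prime factors (with multiplicity), all at least `y`. -/
def Almost (r : ℕ) (y : ℝ) (n : ℕ) : Prop :=
  n ≠ 0 ∧ n.primeFactorsList.length ≤ r ∧ ∀ l : ℕ, l ∈ n.primeFactorsList → y ≤ l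

/-- The expected order `S (N L / p) / y ^ (m + 1)`. -/
noncomputable def expected (m p N L : ℕ) (S y : ℝ) : ℝ := S * (N * ((L : ℝ) / p)) / y ^ (m + 1)

/-- the constant terms of the linear forms `q, E_1 - q, ..., E_m - q` -/
def ca {m : ℕ} (E : Fin m → ℕ) : Fin (m + 1) → ℤ := Fin.cons 0 (fun j => (E j : ℤ))

/-- the leading coefficients of the linear forms `q, E_1 - q, ..., E_m - q` -/
def cd (m : ℕ) : Fin (m + 1) → ℤ := Fin.cons 1 (fun _ => -1)

theorem prod_eq {m : ℕ} (E : Fin m → ℕ) (q : ℤ) :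
    ∏ j, (ca E j + cd m j * q) = q * ∏ j, ((E j : ℤ) - q) := by
  rw [Fin.prod_univ_succ]
  unfold ca cd
  simp only [Fin.cons_zero, Fin.cons_succ]
  congr 1
  · ring
  · refine prod_congr rfl fun j _ => ?_
    ring

theorem forall_eq {m : ℕ} (E : Fin m → ℕ) (q : ℕ) (hq : ∀ j, q < E j) (P : ℕ → Prop) :
    (∀ j, P (ca E j + cd m j * (q : ℤ)).natAbs) ↔ P q ∧ ∀ j, P (E j - q) := by
  rw [Fin.forall_fin_succ]
  unfold ca cd
  simp only [Fin.cons_zero, Fin.cons_succ]
  have h0 : ((0 : ℤ) + 1 * (q : ℤ)).natAbs = q := by omega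
  rw [h0]
  have h1 : ∀ j, ((E j : ℤ) + -1 * (q : ℤ)).natAbs = E j - q := by
    intro j
    have := hq j
    omega
  simp only [h1]

theorem psing_eq {m : ℕ} (E : Fin m → ℕ) :
    partialSingular E = Pool.Agent.Run7.h90.AU.psing (ca E) (cd m) := by
  funext z
  unfold partialSingular Pool.Agent.Run7.h90.AU.psing
  refine prod_congr rfl fun l _ => ?_
  have h : w E l = Pool.Agent.Run7.h90.AU.om (ca E) (cd m) l := by
    unfold w Pool.Agent.Run7.h90.AU.om
    congr 1
    ext n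
    simp only [mem_filter, prod_eq]
  rw [h]

theorem ts {m : ℕ} {E : Fin m → ℕ} {Q : ℝ} (h : Admissible Q E) (hQ1 : 1 ≤ Q) :
    Pool.Agent.Run7.h90.AU.TS Q (ca E) (cd m) := by
  obtain ⟨h1, h2, h3⟩ := h
  refine ⟨?_, ?_, ?_, ?_, ?_⟩
  · intro j
    unfold cd
    refine Fin.cases ?_ (fun j => ?_) j
    · simp
    · simp
  · intro i j
    unfold ca cd
    refine Fin.cases ?_ (fun i => ?_) i
    · refine Fin.cases ?_ (fun j => ?_) j
      · intro h
        exact absurd rfl h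
      · intro _
        simp only [Fin.cons_zero, Fin.cons_succ]
        have := (h2 j).1
        omega
    · refine Fin.cases ?_ (fun j => ?_) j
      · intro _
        simp only [Fin.cons_zero, Fin.cons_succ]
        have := (h2 i).1
        omega
      · intro hij
        simp only [Fin.cons_succ]
        have : E i ≠ E j := fun h => hij (by rw [h1 h])
        omega
  · intro l hl
    obtain ⟨q, hq⟩ := h3 l hl
    exact ⟨q, by rwa [prod_eq]⟩
  · intro j
    unfold ca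
    refine Fin.cases ?_ (fun j => ?_) j
    · simp only [Fin.cons_zero]
      simpa using (by linarith : (0 : ℝ) ≤ Q)
    · simp only [Fin.cons_succ]
      rw [Int.cast_natCast, Nat.abs_cast]
      exact (h2 j).2.2
  · intro j
    unfold cd
    refine Fin.cases ?_ (fun j => ?_) j
    · simpa using hQ1
    · simpa using hQ1

theorem decompositions_eq {m : ℕ} (p : ℕ) (u : ℕ → ZMod p) (E : Fin m → ℕ) (N M L : ℕ)
    (hE : ∀ j, M + L < E j) (P : ℕ → (Fin m → ℕ) → Prop) (Q : ℕ × ℕ → Prop) [DecidablePred Q]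
    (hPQ : ∀ n q : ℕ, (∀ j, q < E j) → (P q (fun j => E j - q) ↔ Q (n, q))) :
    decompositions p u E N M L P =
      ((Pool.Agent.Run7.h90.AU.prs p (range N) u M L).filter Q).card := by
  unfold decompositions Pool.Agent.Run7.h90.AU.prs
  congr 1
  ext x
  simp only [mem_filter, mem_product, mem_Ioc]
  constructor
  · rintro ⟨⟨h1, h2, h3⟩, h4, h5, h6⟩
    exact ⟨⟨⟨h1, h2, h3⟩, h4⟩, (hPQ x.1 x.2 h5).1 h6⟩
  · rintro ⟨⟨⟨h1, h2, h3⟩, h4⟩, h5⟩
    have h6 : ∀ j, x.2 < E j := fun j => by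
      have := hE j
      omega
    exact ⟨⟨h1, h2, h3⟩, h4, h6, (hPQ x.1 x.2 h6).2 h5⟩

theorem result (m k : ℕ) (η A : ℝ) (hη : 0 < η) (hA : 1 ≤ A) :
    (∃ δ : ℝ, 0 < δ ∧ ∀ b : ℕ, 1 ≤ b → ∃ P₀ : ℝ, ∀ p : ℕ, p.Prime → P₀ ≤ p →
      ∀ (c : Fin k → ZMod p) (g : Fin k → (ZMod p)ˣ) (N L : ℕ), Setting η δ p k c g N L →
      ∀ E : Fin m → ℕ, Admissible ((p : ℝ) ^ A) E →
      ∃ S : ℝ, 0 < S ∧ Tendsto (partialSingular E) atTop (𝓝 S) ∧
      ∀ M z : ℕ, (∀ j, M + L < E j) → Real.log p ≤ z → (z : ℝ) ≤ (p : ℝ) ^ (δ / b) →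
      |(decompositions p (recurrence p k c g) E N M L
          (fun q s => ∀ l : ℕ, l.Prime → l ≤ z → ¬ l ∣ q ∧ ∀ j, ¬ l ∣ s j) : ℝ) -
          Real.exp (-((m + 1 : ℕ) * Real.eulerMascheroniConstant)) * expected m p N L S (Real.log z)| ≤
        (1 / 2) ^ b * (Real.exp (-((m + 1 : ℕ) * Real.eulerMascheroniConstant)) *
          expected m p N L S (Real.log z))) ∧
    (∃ (t : ℕ) (δ K : ℝ), 0 < δ ∧ 0 < K ∧ ∃ P₀ : ℝ, ∀ p : ℕ, p.Prime → P₀ ≤ p →
      ∀ (c : Fin k → ZMod p) (g : Fin k → (ZMod p)ˣ) (N L : ℕ), Setting η δ p k c g N L →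
      ∀ E : Fin m → ℕ, Admissible ((p : ℝ) ^ A) E →
      ∃ S : ℝ, 1 / K ≤ S ∧ Tendsto (partialSingular E) atTop (𝓝 S) ∧
      ∀ M : ℕ, (∀ j, M + L < E j) → (M + L : ℝ) ≤ (p : ℝ) ^ A →
      expected m p N L S (Real.log p) ≤ K * (decompositions p (recurrence p k c g) E N M L
          (fun q s => Almost t ((p : ℝ) ^ δ) q ∧ ∀ j, Almost t ((p : ℝ) ^ δ) (s j)) : ℝ) ∧
      (decompositions p (recurrence p k c g) E N M L (fun q s => q.Prime ∧ ∀ j, (s j).Prime) : ℝ) ≤
        K * expected m p N L S (Real.log p)) := by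
  constructor
  · obtain ⟨δ, hδ, H⟩ := Pool.Agent.Run7.h90.AU.rec_count (m + 1) k η A hη hA
    refine ⟨δ, hδ, fun b hb => ?_⟩
    obtain ⟨P₀, H⟩ := H b hb
    refine ⟨P₀, ?_⟩
    intro p hpp hpP c g N L hS E hE
    have hp1 : (1 : ℝ) ≤ p := by exact_mod_cast hpp.one_le
    have hT := ts hE (Real.one_le_rpow hp1 (by linarith : (0 : ℝ) ≤ A))
    obtain ⟨S, hS0, hSl⟩ := Pool.Agent.Run7.h90.AU.psing_lim hT
    refine ⟨S, hS0, by rw [psing_eq]; exact hSl, ?_⟩
    intro M z hML hz1 hz2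
    have h := H p hpp hpP c g N L hS _ _ hT S hS0 hSl M z hz1 hz2
    rw [decompositions_eq p _ E N M L hML _ (fun x => ∀ l : ℕ, l.Prime → l ≤ z →
      ¬ (l : ℤ) ∣ ∏ j, (ca E j + cd m j * (x.2 : ℤ)))]
    · exact h
    · intro n q hq
      apply forall_congr'
      intro l
      apply imp_congr_right
      intro hl
      apply imp_congr_right
      intro _
      rw [prod_eq, (Nat.prime_iff_prime_int.1 hl).dvd_mul,
        Prime.dvd_finset_prod_iff (Nat.prime_iff_prime_int.1 hl), not_or, Int.natCast_dvd_natCast]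
      apply and_congr_right
      intro _
      push Not
      constructor
      · intro h1 j _ h2
        apply h1 j
        have h3 : ((l : ℕ) : ℤ) ∣ ((E j - q : ℕ) : ℤ) := by
          rw [Nat.cast_sub (hq j).le]
          exact h2
        exact Int.natCast_dvd_natCast.1 h3
      · intro h1 j h2
        apply h1 j (mem_univ j)
        have h3 : ((l : ℕ) : ℤ) ∣ ((E j - q : ℕ) : ℤ) := Int.natCast_dvd_natCast.2 h2
        rwa [Nat.cast_sub (hq j).le] at h3
  · obtain ⟨t, δ, K, hδ, hK, P₀, H⟩ := Pool.Agent.Run7.h90.AU.rec_orders (m + 1) k η A hη hA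
    obtain ⟨c₀, hc₀, hlow⟩ := Pool.Agent.Run7.h90.AU.psing_low (m + 1)
    have hK1 : K ≤ max K (1 / c₀) := le_max_left _ _
    have hK2 : 1 / c₀ ≤ max K (1 / c₀) := le_max_right _ _
    refine ⟨t, δ, max K (1 / c₀), hδ, lt_of_lt_of_le hK hK1, P₀, ?_⟩
    intro p hpp hpP c g N L hS E hE
    have hp1 : (1 : ℝ) ≤ p := by exact_mod_cast hpp.one_le
    have hT := ts hE (Real.one_le_rpow hp1 (by linarith : (0 : ℝ) ≤ A))
    obtain ⟨S, hS0, hSl⟩ := Pool.Agent.Run7.h90.AU.psing_lim hT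
    have hcS := hlow _ _ _ hT S hSl
    refine ⟨S, ?_, by rw [psing_eq]; exact hSl, ?_⟩
    · refine le_trans ?_ hcS
      rw [one_div_le (lt_of_lt_of_le hK hK1) hc₀]
      exact hK2
    intro M hML hMA
    obtain ⟨h1, h2⟩ := H p hpp hpP c g N L hS _ _ hT S hS0 hSl M hMA
    have hexp : 0 ≤ expected m p N L S (Real.log p) := by
      unfold expected
      positivity
    rw [decompositions_eq p _ E N M L hML (fun q s => Almost t ((p : ℝ) ^ δ) q ∧
      ∀ j, Almost t ((p : ℝ) ^ δ) (s j)) (fun x => ∀ j, Pool.Agent.Run7.h90.AU.Alm t ((p : ℝ) ^ δ)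
      (ca E j + cd m j * (x.2 : ℤ)).natAbs),
      decompositions_eq p _ E N M L hML (fun q s => q.Prime ∧ ∀ j, (s j).Prime)
      (fun x => ∀ j, (ca E j + cd m j * (x.2 : ℤ)).natAbs.Prime)]
    · exact ⟨h1.trans (mul_le_mul_of_nonneg_right hK1 (Nat.cast_nonneg _)),
        h2.trans (mul_le_mul_of_nonneg_right hK1 hexp)⟩
    · intro n q hq
      exact (forall_eq E q hq Nat.Prime).symm
    · intro n q hq
      exact (forall_eq E q hq (Pool.Agent.Run7.h90.AU.Alm t ((p : ℝ) ^ δ))).symm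

end Pool.Agent.Results.MP_dd84fd_nt.CommonSummands
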