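import Pool.Agent.Run7.h931.GB.Prm

/-!
# The least number of representations of an even integer by a prime and a perturbed prime

The question is whether every even `n` has at least `δ n / log^2 n` representations as a sum of two primes. Here one of the two
primes is replaced by a perturbed prime: the first `m` primes are replaced by summands `s 0, ..., s (m - 1)`, where `s j` is
congruent to the `j`-th prime modulo `M` (the product of the primes `≤ w`, or any multiple with the same prime divisors), and
otherwise runs through a window of its own; more generally the residues of the `s j` are prescribed arbitrarily. For almost all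
choices the theorem gives the least number of representations of ALL even integers `n` in `(N, 2 N]`, without exceptions,
including the constant: with `size = l log^2 N` it is `x log N (1 + o(1))`, where `x < l` solves `x log (x / l) - x + l = 1` if
`l > 1`, and there are `N^(1 - l + o(1))` even integers without representations if `l < 1`. For the perturbed primes
`size = (2 C_2 + o(1)) m`. This is the prediction of Granville, van de Lune and te Riele for the size of the least prime summand
of the worst even integers.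

Method: second moments of the number of the `n` in the worst residue class modulo `M` weighted by `z ^ (number of representations)`
and truncated; prime pairs with the correct constant in residue classes and windows for almost all differences.
-/

set_option autoImplicit false

namespace Pool.Agent.Results.MP_dd84fd_nt.PerturbedPrimes

open Finset

/-- The number of the representations of `n` as the sum of a prime and one of `s 0, ..., s (m - 1)`: the number of the `j` for
which `n - s j` is a prime. (Below, `n > N` and `s j ≤ N / 2`.) -/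
def reps {m : ℕ} (s : Fin m → ℕ) (n : ℕ) : ℕ := (univ.filter fun j => (n - s j).Prime).card

/-- The even integers `N < n ≤ 2 N`. -/
def evens (N : ℕ) : Finset ℕ := (Ioc N (2 * N)).filter Even

open Classical in
/-- The number of the even integers `N < n ≤ 2 N` with at most `x` representations. -/
noncomputable def few {m : ℕ} (N : ℕ) (s : Fin m → ℕ) (x : ℝ) : ℕ := ((evens N).filter fun n => (reps s n : ℝ) ≤ x).card

/-- The smallest of the numbers `reps s n`, `n` even, `N < n ≤ 2 N`. -/
noncomputable def least {m : ℕ} (N : ℕ) (s : Fin m → ℕ) : ℕ := sInf (reps s '' (evens N : Set ℕ))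

/-- The rate `x log (x / l) - x + l`. It decreases from `l` to `0` for `0 ≤ x ≤ l`. -/
noncomputable def rate (l x : ℝ) : ℝ := x * Real.log (x / l) - x + l

/-- The vectors of summands: `s j` is in the window `(b j, b j + q]` and `s j ≡ c j` modulo `M`. -/
def summands {m : ℕ} (M q : ℕ) (c b : Fin m → ℕ) : Finset (Fin m → ℕ) :=
  Fintype.piFinset fun j => (Ioc (b j) (b j + q)).filter fun v => v ≡ c j [MOD M]

open Classical in
/-- The number of the `j` for which `n - c j` is coprime to `M`. -/
noncomputable def coprimes {m : ℕ} (M : ℕ) (c : Fin m → ℕ) (n : ℕ) : ℕ :=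
  (univ.filter fun j => IsCoprime ((n : ℤ) - c j) (M : ℤ)).card

/-- The effective number of the summands: `M / φ(M)` times the least number, over all even `n`, of the `j` for which `n - c j` is
coprime to `M`. -/
noncomputable def size {m : ℕ} (M : ℕ) (c : Fin m → ℕ) : ℝ :=
  (M : ℝ) / Nat.totient M * (sInf (Set.range fun n : ℕ => coprimes M c (2 * n)) : ℕ)

/-- The product `2 ∏ (1 - 1 / (p - 1)^2)` over the primes `2 < p ≤ w`; it tends to `2 C_2 = 1.32...` for `w → ∞`. -/
noncomputable def twice (w : ℕ) : ℝ := 2 * ∏ p ∈ (Icc 3 w).filter Nat.Prime, (1 - 1 / ((p : ℝ) - 1) ^ 2)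

/-- What holds for almost all vectors of summands. -/
def Law {m : ℕ} (N : ℕ) (l ε : ℝ) (s : Fin m → ℕ) : Prop :=
  (∀ x : ℝ, 0 ≤ x → x ≤ l →
    (few N s (x * Real.log N) : ℝ) ≤ (N : ℝ) ^ (1 - rate l x + ε) ∧
    (rate l x ≤ 1 - ε → (N : ℝ) ^ (1 - rate l x - ε) ≤ (few N s (x * Real.log N) : ℝ))) ∧
  (least N s : ℝ) ≤ l * Real.log N ∧ (1 + ε ≤ l → |rate l (least N s / Real.log N) - 1| ≤ ε)

open Classical in
/-- Let `Λ ≥ 1` and `0 < ε ≤ 1`. There is `w₀` such that the following holds for all `a`, all `w ≥ w₀` and every modulus `M` whose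
prime divisors are exactly the primes up to `w`. For all large `N`, all `q ≥ N / log^a N`, all `m`, all residues `c j` and all
windows `(b j, b j + q]` in `(0, N / 2]`, `j < m`, whose size is `l log^2 N` with `1 / Λ ≤ l ≤ Λ`:

**(A)** For all but a proportion of at most `ε` of the vectors `s` of summands `s j ≡ c j` modulo `M` in the windows:
(1) for all `0 ≤ x ≤ l` the number of the even integers `N < n ≤ 2 N` with at most `x log N` representations `n = s j + prime` is at
most `N^(1 - rate l x + ε)`, and it is at least `N^(1 - rate l x - ε)` if `rate l x ≤ 1 - ε`. In particular (`x = 0`) the number of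
the even integers which have no representation is `N^(1 - l ± ε)` if `l ≤ 1 - ε`.
(2) The least number `R` of representations of the even integers `N < n ≤ 2 N` is at most `l log N`, and if `l ≥ 1 + ε`, then
`|rate l (R / log N) - 1| ≤ ε`. In particular `R > 0`: all even integers are represented.

**(B)** If the residues are the first `m` primes (`c 0 = 2`, `c 1 = 3`, ...), then `|size - twice w * m| ≤ ε m`. -/
theorem result (Λ ε : ℝ) (hΛ : 1 ≤ Λ) (hε : 0 < ε) (hε1 : ε ≤ 1) : ∃ w₀ : ℕ, ∀ a w : ℕ, w₀ ≤ w → ∀ M : ℕ, 1 ≤ M →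
    (∀ p : ℕ, p.Prime → (p ∣ M ↔ p ≤ w)) → ∃ N₀ : ℕ, ∀ N : ℕ, N₀ ≤ N → ∀ q : ℕ, (N : ℝ) ≤ q * Real.log N ^ a →
    ∀ (m : ℕ) (c b : Fin m → ℕ), (∀ j, 2 * (b j + q) ≤ N) → ∀ l : ℝ, size M c = l * Real.log N ^ 2 → 1 / Λ ≤ l → l ≤ Λ →
      (((summands M q c b).filter fun s => ¬ Law N l ε s).card : ℝ) ≤ ε * (summands M q c b).card ∧
      ((∀ j, c j = Nat.nth Nat.Prime j) → |size M c - twice w * m| ≤ ε * m) := by
  obtain ⟨w₀, hw₀⟩ := Pool.Agent.Run7.h931.GB.gold Λ ε hΛ hε hε1
  refine ⟨max w₀ 2, fun a w hw M hM1 hM => ?_⟩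
  have hw2 : 2 ≤ w := (le_max_right _ _).trans hw
  obtain ⟨m₀, hm₀⟩ := Filter.eventually_atTop.1 (Pool.Agent.Run7.h931.GB.size_primes w M hw2 hM1 hM ε hε)
  have hφ : (0 : ℝ) < Nat.totient M := by exact_mod_cast Nat.totient_pos.2 hM1
  have hP : (M : ℝ) / Nat.totient M = Pool.Agent.Run7.h931.RS.Pw w := by
    rw [← Pool.Agent.Run7.h931.RL.tot_P w M hM1 hM]
    field_simp
  have hP1 := Pool.Agent.Run7.h931.RS.one_le_Pw w
  obtain ⟨N₀, hN₀⟩ := Filter.eventually_atTop.1 ((hw₀ a w ((le_max_left _ _).trans hw) M hM1 hM).and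
    ((Filter.eventually_ge_atTop 3).and
      (Pool.Agent.Run7.h931.RS.ev_log (Λ * (Pool.Agent.Run7.h931.RS.Pw w * (m₀ + 1)) + 1))))
  refine ⟨N₀, fun N hN q hq m c b hb l hl hl1 hl2 => ?_⟩
  obtain ⟨g1, g2, g3⟩ := hN₀ N hN
  have hΛ0 : 0 < Λ := by linarith
  have hl0 : 0 < l := lt_of_lt_of_le (by positivity) hl1
  have hL1 : 1 ≤ Real.log (N : ℝ) := by
    have : 0 ≤ Λ * (Pool.Agent.Run7.h931.RS.Pw w * ((m₀ : ℝ) + 1)) := by positivity
    linarith
  have hL0 : 0 < Real.log (N : ℝ) := by linarith
  -- the number of the residues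
  have hco : ∀ n : ℕ, ∀ v : ℕ, IsCoprime ((n : ℤ) - v) (M : ℤ) ↔ (n + (M - 1) * v).Coprime M := by
    intro n v
    rw [← Nat.isCoprime_iff_coprime]
    have h1 : ((n + (M - 1) * v : ℕ) : ℤ) = (n : ℤ) - v + M * v := by
      rw [Nat.cast_add, Nat.cast_mul, Nat.cast_sub hM1]
      push_cast
      ring
    rw [h1]
    exact (IsCoprime.add_mul_left_left_iff).symm
  have hcp : ∀ n : ℕ, coprimes M c n = Pool.Agent.Run7.h931.GB.lg M c n := by
    intro n
    unfold coprimes Pool.Agent.Run7.h931.GB.lg
    congr 1
    apply filter_congr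
    intro j _
    exact hco n (c j)
  have hsize : size M c = Pool.Agent.Run7.h931.RS.Pw w * Pool.Agent.Run7.h931.GB.rs M c := by
    have h1 : (fun n : ℕ => coprimes M c (2 * n)) = fun n : ℕ => Pool.Agent.Run7.h931.GB.lg M c (2 * n) := funext fun n => hcp _
    unfold size Pool.Agent.Run7.h931.GB.rs
    rw [hP, h1]
  constructor
  · have k1 := g1 q hq m c b hb l (by rw [← hsize]; exact hl) hl1 hl2
    have hcard : ((summands M q c b).card : ℝ) = Pool.Agent.Run7.h931.GB.Qt M q c b :=
      Pool.Agent.Run7.h931.GB.Om_card M q c b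
    rw [hcard]
    refine le_trans ?_ k1
    apply Nat.cast_le.2
    apply card_le_card
    intro s hs
    rw [mem_filter] at hs ⊢
    refine ⟨hs.1, fun h => hs.2 ?_⟩
    obtain ⟨h1, h2⟩ := h
    have hrate : ∀ x : ℝ, rate l x = l * Pool.Agent.Run7.h931.EX.ent (x / l) := by
      intro x
      unfold rate Pool.Agent.Run7.h931.EX.ent
      field_simp
    have hev : (evens N).Nonempty := by
      refine ⟨2 * N, ?_⟩
      unfold evens
      rw [mem_filter, mem_Ioc]
      exact ⟨⟨by omega, le_rfl⟩, even_two_mul N⟩
    refine ⟨fun x hx0 hx1 => ?_, ?_⟩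
    · have hz0 : 0 ≤ x / l := by positivity
      have hz1 : x / l ≤ 1 := (div_le_one hl0).2 hx1
      have h3 := h1 (x / l) hz0 hz1
      have h4 : x / l * (l * Real.log N) = x * Real.log N := by field_simp
      rw [h4, ← hrate] at h3
      exact ⟨h3.2, h3.1⟩
    · have h5 : least N s ∈ reps s '' (evens N : Set ℕ) := Nat.sInf_mem ((coe_nonempty.2 hev).image _)
      have h6 := h2 (least N s) (by
        obtain ⟨n, hn, hn2⟩ := h5
        exact ⟨n, by exact_mod_cast hn, hn2⟩) (fun n hn => Nat.sInf_le ⟨n, by exact_mod_cast hn, rfl⟩)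
      refine ⟨h6.1, fun hl' => ?_⟩
      rw [hrate]
      exact h6.2 hl'
  · intro hc
    have hc' : c = fun j : Fin m => Nat.nth Nat.Prime j := funext hc
    have hm : m₀ ≤ m := by
      have h1 : (Pool.Agent.Run7.h931.GB.rs M c : ℝ) ≤ m := by
        have h2 : Pool.Agent.Run7.h931.GB.rs M c ≤ m := by
          refine (Pool.Agent.Run7.h931.GB.rs_le M c 0 Even.zero).trans ?_
          unfold Pool.Agent.Run7.h931.GB.lg
          exact (card_filter_le _ _).trans (by rw [card_univ, Fintype.card_fin])
        exact_mod_cast h2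
      have h3 : 1 / Λ * Real.log N ^ 2 ≤ Pool.Agent.Run7.h931.RS.Pw w * m := by
        have h4 := mul_le_mul_of_nonneg_right hl1 (by positivity : (0 : ℝ) ≤ Real.log N ^ 2)
        rw [← hl, hsize] at h4
        exact h4.trans (mul_le_mul_of_nonneg_left h1 (by linarith))
      have h5 : Real.log N ^ 2 ≤ Λ * (Pool.Agent.Run7.h931.RS.Pw w * m) := by
        rw [one_div, inv_mul_le_iff₀ hΛ0] at h3
        exact h3
      by_contra hcon
      have h6 : (m : ℝ) ≤ m₀ + 1 := by exact_mod_cast (by omega : m ≤ m₀ + 1)
      have h7 : Λ * (Pool.Agent.Run7.h931.RS.Pw w * m) ≤ Λ * (Pool.Agent.Run7.h931.RS.Pw w * (m₀ + 1)) :=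
        mul_le_mul_of_nonneg_left (mul_le_mul_of_nonneg_left h6 (by linarith)) hΛ0.le
      nlinarith
    have h8 := hm₀ m hm
    rw [hsize, hc']
    exact h8

end Pool.Agent.Results.MP_dd84fd_nt.PerturbedPrimes
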