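import Pool.Agent.Run7.h536.PW4
import Pool.Agent.R459.C2

/-!
# The lower bound for the number of Goldbach representations, in all long windows, for all even integers near almost
all values of EVERY integer polynomial of degree `d` at integers with restricted digits

The new ingredient is a Weyl inequality for polynomials of any degree at integers with independent random digits, and
the resulting bound for the additive energy, uniformly in the polynomial (`Pool.Agent.Run7.h536.PW1` to `PW3`).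

Definitions used:
* in `Pool.Agent.H560R3.GB`: `g m`: the number of ordered representations of `m` as a sum of two primes; `sing m`: the
  singular series `2 C₂ ∏_{p ∣ m, p > 2} (p - 1) / (p - 2)`, where `C₂ = ∏_{p > 2} (1 - 1 / (p - 1) ^ 2)`;
* in `Pool.Agent.TH872.GQ`: `S b D k`: the integers below `b ^ k` whose `i`-th digit in base `b` lies in `D i`, for all
  `i < k`;
* in Mathlib: `ℤ[X]`: the polynomials with integer coefficients; `f.natDegree`: the degree; `f.eval x`: the value.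
-/

set_option autoImplicit false

namespace Pool.Agent.Results.MP_dd84fd_nt.PolynomialNeighbourhoods

open Finset Polynomial Pool.Agent.H560R3.GB
open Pool.Agent.TH872.GQ (S)

/-- The number of ordered representations of `m` as a sum `p + q` of two primes with `y₁ < p ≤ y₂`. -/
def G (m y₁ y₂ : ℕ) : ℕ := ((Ioc y₁ y₂).filter (fun p => p.Prime ∧ (m - p).Prime)).card

/-- (1) `g m ≥ 1.3 m / log ^ 2 m`;
(2) for all windows `(y₁, y₂] ⊆ (0, m]` of length at least `m / log ^ A m` the number `G m y₁ y₂` of the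
representations `m = p + q` with `y₁ < p ≤ y₂` is at least `1.3 (y₂ - y₁) / log ^ 2 m`, and it is
`sing m * (y₂ - y₁) / log ^ 2 m` up to a relative error of at most `ε`. -/
def Holds (ε : ℝ) (A m : ℕ) : Prop :=
  13 / 10 * (m / Real.log m ^ 2) ≤ g m ∧
  ∀ y₁ y₂ : ℕ, y₁ < y₂ → y₂ ≤ m → (m : ℝ) / Real.log m ^ A ≤ (y₂ : ℝ) - y₁ →
    13 / 10 * (((y₂ : ℝ) - y₁) / Real.log m ^ 2) ≤ G m y₁ y₂ ∧
    |(G m y₁ y₂ : ℝ) - sing m * (((y₂ : ℝ) - y₁) / Real.log m ^ 2)| ≤
      ε * (sing m * (((y₂ : ℝ) - y₁) / Real.log m ^ 2))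

/-- `Holds` for all the even integers `m > 0` at a distance of at most `Q` from `x`. -/
def Near (ε : ℝ) (A Q : ℕ) (x : ℤ) : Prop := ∀ m : ℕ, 0 < m → Even m → |(m : ℤ) - x| ≤ Q → Holds ε A m

lemma G_full (m : ℕ) : G m 0 m = g m := by
  unfold G g
  apply card_bij' (fun p _ => (p, m - p)) (fun q _ => q.1)
  · intro p hp
    rw [mem_filter, mem_Ioc] at hp
    rw [mem_filter, HasAntidiagonal.mem_antidiagonal]
    exact ⟨by simp only; omega, hp.2⟩
  · intro q hq
    rw [mem_filter, HasAntidiagonal.mem_antidiagonal] at hq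
    rw [mem_filter, mem_Ioc]
    obtain ⟨h1, h2, h3⟩ := hq
    have e : m - q.1 = q.2 := by omega
    rw [e]
    exact ⟨⟨h2.pos, by omega⟩, h2, h3⟩
  · intro p _
    rfl
  · intro q hq
    rw [mem_filter, HasAntidiagonal.mem_antidiagonal] at hq
    ext
    · rfl
    · simp only
      omega

lemma holds_of (A : ℕ) (ε : ℝ) (m : ℕ) (hm : 3 ≤ m) (hw : Pool.Agent.W93.PG.WinP (min ε (1 / 200)) A m) :
    Holds ε A m := by
  have hmr : (3 : ℝ) ≤ m := by exact_mod_cast hm
  have hlog : 1 ≤ Real.log m := by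
    rw [Real.le_log_iff_exp_le (by linarith)]
    linarith [Real.exp_one_lt_d9]
  have key : ∀ y₁ y₂ : ℕ, y₁ < y₂ → y₂ ≤ m → (m : ℝ) / Real.log m ^ A ≤ (y₂ : ℝ) - y₁ →
    13 / 10 * (((y₂ : ℝ) - y₁) / Real.log m ^ 2) ≤ G m y₁ y₂ ∧
    |(G m y₁ y₂ : ℝ) - sing m * (((y₂ : ℝ) - y₁) / Real.log m ^ 2)| ≤
      ε * (sing m * (((y₂ : ℝ) - y₁) / Real.log m ^ 2)) := by
    intro y₁ y₂ hy hym hl
    have h1 : |(G m y₁ y₂ : ℝ) - sing m * ((y₂ : ℝ) - y₁) / Real.log m ^ 2| ≤
      min ε (1 / 200) * (sing m * ((y₂ : ℝ) - y₁) / Real.log m ^ 2) := hw y₁ y₂ hy hym hl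
    obtain ⟨Q, hQ⟩ : ∃ Q : ℝ, Q = ((y₂ : ℝ) - y₁) / Real.log m ^ 2 := ⟨_, rfl⟩
    have hyr : (y₁ : ℝ) < y₂ := by exact_mod_cast hy
    have hQ0 : 0 < Q := by
      rw [hQ]
      apply div_pos (by linarith) (by positivity)
    have e1 : sing m * ((y₂ : ℝ) - y₁) / Real.log m ^ 2 = sing m * Q := by rw [hQ]; ring
    have hs := Pool.Agent.R459.sing_num m
    have hsQ : 327 / 250 * Q ≤ sing m * Q := mul_le_mul_of_nonneg_right hs hQ0.le
    have hsQ0 : 0 ≤ sing m * Q := by linarith [mul_pos (by norm_num : (0 : ℝ) < 327 / 250) hQ0]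
    rw [e1] at h1
    rw [← hQ]
    refine ⟨?_, h1.trans (mul_le_mul_of_nonneg_right (min_le_left _ _) hsQ0)⟩
    have h2 := h1.trans (mul_le_mul_of_nonneg_right (min_le_right _ _) hsQ0)
    rw [abs_le] at h2
    linarith [h2.1]
  refine ⟨?_, key⟩
  have h3 := (key 0 m (by omega) le_rfl (by
    rw [Nat.cast_zero, sub_zero]
    exact div_le_self (by linarith) (one_le_pow₀ hlog))).1
  rw [G_full, Nat.cast_zero, sub_zero] at h3
  exact h3

open Classical in
/-- Let `b ≥ 2`, `d ≥ 2`, `A`, `B`, `W`, `U` and `ε > 0` be fixed, and let `k` be large. Let `D 0, …, D (k - 1)` be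
arbitrary sets of at least two digits in base `b`, and let `S` be the set of the integers below `b ^ k` whose `i`-th
digit lies in `D i` for all `i < k`. Let `f` be an ARBITRARY polynomial of degree `d` with integer coefficients (of any
size; they may depend on `k`). Then all the `n ∈ S` with `f(n) ≤ k ^ B b ^ (d k)`, except for at most `#S / k ^ U` of
them, have the following property: for ALL the even integers `m > 0` at a distance of at most `k ^ W` from `f(n)`, the
number of representations of `m` as a sum of two primes is at least `1.3 m / log ^ 2 m`; moreover, for all windows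
`(y₁, y₂] ⊆ (0, m]` with `y₂ - y₁ ≥ m / log ^ A m` the number of the representations `m = p + q` with `y₁ < p ≤ y₂`
is at least `1.3 (y₂ - y₁) / log ^ 2 m`, and it is as predicted by Hardy and Littlewood up to a relative error of at
most `ε`. -/
theorem result (b d A B W U : ℕ) (hb : 2 ≤ b) (hd : 2 ≤ d) (ε : ℝ) (hε : 0 < ε) :
    ∃ k₀ : ℕ, ∀ k : ℕ, k₀ ≤ k → ∀ D : ℕ → Finset ℕ, (∀ i < k, D i ⊆ range b ∧ 2 ≤ (D i).card) →
      ∀ f : ℤ[X], f.natDegree = d →
      (((S b D k).filter (fun n : ℕ => f.eval (n : ℤ) ≤ (k : ℤ) ^ B * (b : ℤ) ^ (d * k) ∧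
        ¬ Near ε A (k ^ W) (f.eval (n : ℤ)))).card : ℝ) ≤ (S b D k).card / (k : ℝ) ^ U := by
  obtain ⟨k₀, h⟩ := Pool.Agent.Run7.h536.near_poly b d B A W U 3 hb hd (min ε (1 / 200))
    (lt_min hε (by norm_num)) (Holds ε A) (fun m hm _ hw => holds_of A ε m hm hw)
  refine ⟨k₀, fun k hk D hD f hf => h k hk D hD f hf _ ?_⟩
  intro n hn
  obtain ⟨h0, hn⟩ := hn
  unfold Near at hn
  push Not at hn
  obtain ⟨m, h1, h2, h3, h4⟩ := hn
  refine ⟨?_, m, h1, h2, by push_cast at h3; exact h3, h4⟩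
  push_cast
  exact h0

end Pool.Agent.Results.MP_dd84fd_nt.PolynomialNeighbourhoods
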