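import Pool.Agent.Run7.h673.SP.Two
import Pool.Agent.N625.DY.I
import Pool.Agent.H560R3.GB.Defs

/-!
# The lower bound for the number of Goldbach representations near the values of functions of superpolynomial growth

Definitions used (starting file `Pool.Agent.H560R3.GB.Defs`): `C₂`: the twin prime constant
`∏_{p > 2} (1 - 1 / (p - 1) ^ 2)`; `sing m`: the singular series `2 C₂ ∏_{p ∣ m, p > 2} (p - 1) / (p - 2)`; `g m`: the
number of the ordered pairs of primes with the sum `m`. From Mathlib: `ContDiffAt ℝ ⊤`: infinitely differentiable at a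
point; `iteratedDeriv m f`: the derivative of order `m`; `⌊y⌋₊`: the integer part of `y`, and `0` for `y < 0`.

Method: the characteristic function of the integer part of `exp (φ (log n))`, for `n` in intervals `(y, x]` of a length of
at most `x / log x`, is small at all frequencies which are not close to integers: Vinogradov's method of bilinear
exponential sums (`n ↦ n + u v` and the moments of the Weyl sums of a high degree) with the mean value theorem in the form
of a starting file, together with Kusmin and Landau and van der Corput at the small frequencies; these parts are the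
files `Pool.Agent.Run7.h673.SP`. The passage from such exponential sums to Goldbach representations in windows is from
the starting files (`Pool.Agent.W93`, `Pool.Agent.TH872.An3`, `Pool.Agent.N625.DY`).
-/

set_option autoImplicit false

namespace Pool.Agent.Results.MP_dd84fd_nt.SuperpolynomialNeighbourhoods

open Finset Filter Pool.Agent.H560R3.GB

/-- The conditions on `φ` for the growth of `f t = exp (φ (log t))`: for some `δ > 0`, `C` and `L₀` and all `y > L₀` the
function `φ` is infinitely differentiable at `y`, `φ y > 0`, `(1 + δ) φ y ≤ y φ' y`, `φ y ≤ y ^ (3 / 2 - δ)`, and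
`|φ⁽ᵐ⁾ y| ≤ m! φ y (C / y) ^ m` for all `m ≥ 1`. -/
def Rapid (φ : ℝ → ℝ) : Prop :=
  ∃ δ C L₀ : ℝ, 0 < δ ∧ ∀ y > L₀, ContDiffAt ℝ ((⊤ : ℕ∞) : WithTop ℕ∞) φ y ∧ 0 < φ y ∧
    (1 + δ) * φ y ≤ y * deriv φ y ∧ φ y ≤ y ^ (3 / 2 - δ) ∧
    ∀ m : ℕ, 1 ≤ m → |iteratedDeriv m φ y| ≤ m.factorial * φ y * (C / y) ^ m

/-- `(y, x]` is an admissible interval of the scale `N`: `x / log ^ a N ≤ x - y ≤ x / log x`, and
`exp (φ (log n)) ≤ N ≤ exp (φ (log x)) log ^ a N` for `y < n ≤ x`. -/
def Admissible (φ : ℝ → ℝ) (a N x y : ℕ) : Prop :=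
  y < x ∧ (x : ℝ) - x / Real.log x ≤ y ∧ (x : ℝ) ≤ Real.log N ^ a * ((x : ℝ) - y) ∧
  (∀ n : ℕ, n ∈ Ioc y x → Real.exp (φ (Real.log n)) ≤ N) ∧ (N : ℝ) ≤ Real.log N ^ a * Real.exp (φ (Real.log x))

/-- The number of primes `p` with `y₁ < p ≤ y₂` such that `m - p` is a prime. -/
def R (m y₁ y₂ : ℕ) : ℕ := ((Ioc y₁ y₂).filter (fun p => p.Prime ∧ (m - p).Prime)).card

/-- (1) the number `g m` of representations of `m` as a sum of two primes is at least `(1 - ε) 2 C₂ m / log ^ 2 m` and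
agrees with `sing m * m / log ^ 2 m` up to a relative error of at most `ε`; (2) in every window `(y₁, y₂]` of a length of
at least `m / log ^ A m` with `0 ≤ y₁ < y₂ ≤ m` the number of primes `p` such that `m - p` is a prime agrees with
`sing m * (y₂ - y₁) / log ^ 2 m` up to a relative error of at most `ε`. -/
def Holds (ε : ℝ) (A m : ℕ) : Prop :=
  ((1 - ε) * (2 * C₂) * m / Real.log m ^ 2 ≤ g m ∧
    |(g m : ℝ) - sing m * m / Real.log m ^ 2| ≤ ε * (sing m * m / Real.log m ^ 2)) ∧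
  ∀ y₁ y₂ : ℕ, y₁ < y₂ → y₂ ≤ m → (m : ℝ) / Real.log m ^ A ≤ (y₂ : ℝ) - y₁ →
    |(R m y₁ y₂ : ℝ) - sing m * ((y₂ : ℝ) - y₁) / Real.log m ^ 2| ≤ ε * (sing m * ((y₂ : ℝ) - y₁) / Real.log m ^ 2)

/-- Every positive even integer `m` at a distance of at most `w` from `c` has the property `Holds ε A m`. -/
def Near (ε : ℝ) (A : ℕ) (w : ℝ) (c : ℤ) : Prop :=
  ∀ m : ℤ, ((|m - c| : ℤ) : ℝ) ≤ w → 0 < m → Even m → Holds ε A m.toNat

lemma g_eq (m : ℕ) : g m = R m 0 m := by
  unfold g R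
  symm
  apply card_bij (fun p _ => (p, m - p))
  · intro p hp
    rw [mem_filter, mem_Ioc] at hp
    rw [mem_filter, HasAntidiagonal.mem_antidiagonal]
    exact ⟨by omega, hp.2⟩
  · intro p _ q _ h
    exact (Prod.ext_iff.1 h).1
  · rintro ⟨p, q⟩ h
    rw [mem_filter, HasAntidiagonal.mem_antidiagonal] at h
    simp only at h
    refine ⟨p, ?_, ?_⟩
    · rw [mem_filter, mem_Ioc]
      refine ⟨⟨h.2.1.pos, by omega⟩, h.2.1, ?_⟩
      rw [← h.1, Nat.add_sub_cancel_left]
      exact h.2.2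
    · rw [← h.1, Nat.add_sub_cancel_left]

lemma C2_nonneg : 0 ≤ C₂ := by
  have h := Pool.Agent.W93.GB.one_le_sing 1
  unfold sing at h
  simp only [Nat.primeFactors_one, filter_empty, prod_empty, mul_one] at h
  linarith

lemma le_sing (m : ℕ) : 2 * C₂ ≤ sing m := by
  unfold sing
  have h0 := C2_nonneg
  have h1 : (1 : ℝ) ≤ ∏ p ∈ m.primeFactors.filter (fun p => 2 < p), ((p : ℝ) - 1) / ((p : ℝ) - 2) := by
    apply prod_induction _ (fun y : ℝ => 1 ≤ y) (fun a b ha hb => one_le_mul_of_one_le_of_one_le ha hb) le_rfl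
    intro p hp
    rw [mem_filter] at hp
    have h2 : (3 : ℝ) ≤ p := by exact_mod_cast hp.2
    rw [one_le_div (by linarith)]
    linarith
  nlinarith

lemma holds_of (ε : ℝ) (hε1 : ε ≤ 1) (A : ℕ) (m : ℕ) (hm : 3 ≤ m)
    (hwin : Pool.Agent.W93.PG.WinP ε A m) : Holds ε A m := by
  unfold Pool.Agent.W93.PG.WinP at hwin
  have hR : ∀ y₁ y₂, Pool.Agent.W93.PG.cnt m y₁ y₂ = R m y₁ y₂ := fun _ _ => rfl
  simp only [hR] at hwin
  have hm0 : (0 : ℝ) < m := by exact_mod_cast (by omega : 0 < m)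
  have hl : 1 ≤ Real.log m := by
    rw [Real.le_log_iff_exp_le hm0]
    have : (3 : ℝ) ≤ m := by exact_mod_cast hm
    linarith [Real.exp_one_lt_d9]
  have h1 := hwin 0 m (by omega) le_rfl (by
    push_cast
    rw [sub_zero]
    exact div_le_self hm0.le (one_le_pow₀ hl))
  rw [← g_eq] at h1
  push_cast at h1
  rw [sub_zero] at h1
  have h2 := le_sing m
  refine ⟨⟨?_, h1⟩, hwin⟩
  have h3 := (abs_le.1 h1).1
  have h4 : (2 * C₂) * m / Real.log m ^ 2 ≤ sing m * m / Real.log m ^ 2 := by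
    apply div_le_div_of_nonneg_right _ (by positivity)
    exact mul_le_mul_of_nonneg_right h2 hm0.le
  have h5 : (1 - ε) * (2 * C₂) * m / Real.log m ^ 2 = (1 - ε) * ((2 * C₂) * m / Real.log m ^ 2) := by ring
  rw [h5]
  have h6 := mul_le_mul_of_nonneg_left h4 (by linarith : 0 ≤ 1 - ε)
  linarith

open Classical in
/-- Let `φ` satisfy the conditions `Rapid` and let `κ ≠ 0`, `A` and `0 < ε ≤ 1` be fixed.

**(1)** Let `a`, `B`, `W`, `U` be fixed. Let `N` be large, let `(y, x]` be an admissible interval of the scale `N`, and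
let `|c₀| ≤ B N`. Then all the integers `y < n ≤ x`, with at most `(x - y) / log ^ U N` exceptions, have the following
property: every positive even integer `m` at a distance of at most `log ^ W N` from
`c₀ + κ ⌊exp (φ (log n))⌋` has `sing m * m / log ^ 2 m ≥ 2 C₂ m / log ^ 2 m` representations as a sum of two primes up to
a relative error of at most `ε`, and the same holds for the representations with one prime in a given window, for all
windows of a length of at least `m / log ^ A m`.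

**(2)** Let `W`, `U` and `c₀` be fixed. For large `X` all the positive integers `n ≤ X`, with at most `X / log ^ U X`
exceptions, have this property for the window `φ (log n) ^ W`, where `φ (log n)` is the logarithm of
`exp (φ (log n))`.

**(3)** The functions `φ y = γ y ^ β` with `γ > 0` and `1 < β < 3 / 2` satisfy the conditions `Rapid`: so (1) and (2) hold
for the superpolynomial functions `exp (γ (log n) ^ β)`. -/
theorem result :
    (∀ φ : ℝ → ℝ, Rapid φ → ∀ (κ : ℤ), κ ≠ 0 → ∀ (A : ℕ) (ε : ℝ), 0 < ε → ε ≤ 1 →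
      (∀ a B W U : ℕ, ∃ N₀ : ℕ, ∀ N : ℕ, N₀ ≤ N → ∀ x y : ℕ, Admissible φ a N x y → ∀ c₀ : ℤ, |c₀| ≤ B * N →
        (((Ioc y x).filter fun n : ℕ =>
          ¬ Near ε A (Real.log N ^ W) (c₀ + κ * (⌊Real.exp (φ (Real.log n))⌋₊ : ℕ))).card : ℝ) ≤
            ((x : ℝ) - y) / Real.log N ^ U) ∧
      (∀ (W U : ℕ) (c₀ : ℤ), ∃ X₀ : ℕ, ∀ X : ℕ, X₀ ≤ X →
        (((Icc 1 X).filter fun n : ℕ =>
          ¬ Near ε A (φ (Real.log n) ^ W) (c₀ + κ * (⌊Real.exp (φ (Real.log n))⌋₊ : ℕ))).card : ℝ) ≤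
            X / Real.log X ^ U)) ∧
    (∀ γ β : ℝ, 0 < γ → 1 < β → β < 3 / 2 → Rapid (fun y => γ * y ^ β)) := by
  refine ⟨fun φ hφ κ hκ A ε hε hε1 => ?_, fun γ β h1 h2 h3 => Pool.Agent.Run7.h673.SP.rapid_pow γ β h1 h2 h3⟩
  have hφ' : Pool.Agent.Run7.h673.SP.Rapid φ := hφ
  obtain ⟨δ, C, L₀, hf⟩ := hφ'.fast
  obtain ⟨h1, h2⟩ := Pool.Agent.Run7.h673.SP.two hφ' (fun w c v => Near ε A w (c + κ * (v : ℕ)))
    (fun w w' c v hw h m hm => h m (hm.trans hw)) (by
      intro a B W U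
      obtain ⟨Q, hQ⟩ : ∃ Q : ℤ → Prop, Q = fun m => (0 < m → Even m → Holds ε A m.toNat) := ⟨_, rfl⟩
      obtain ⟨k₀, h0⟩ := Pool.Agent.N625.DY.cls_gold (hf.clsV (a + 1) κ hκ).toCls B A W (U + 1) 3 ε hε (Holds ε A)
        (fun m hm _ hwin => holds_of ε hε1 A m hm hwin) Q (fun y hy => by
          rw [hQ] at hy
          push Not at hy
          exact ⟨hy.1, hy.2.1, hy.2.2⟩)
      refine ⟨k₀, fun k hk p hp c₀ hc₀ => ?_⟩
      refine le_trans (le_of_eq ?_) (h0 k hk p hp c₀ hc₀)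
      refine sum_congr rfl fun v _ => ?_
      have hiff : Near ε A ((k : ℝ) ^ W) (c₀ + κ * (v : ℕ)) ↔
          ∀ y : ℤ, |y - (c₀ + κ * (v : ℕ))| ≤ (k : ℤ) ^ W → Q y := by
        rw [hQ]
        unfold Near
        refine forall_congr' fun m => ?_
        have h3 : ((|m - (c₀ + κ * (v : ℕ))| : ℤ) : ℝ) ≤ (k : ℝ) ^ W ↔ |m - (c₀ + κ * (v : ℕ))| ≤ (k : ℤ) ^ W := by
          constructor
          · intro h; exact_mod_cast h
          · intro h; exact_mod_cast h
        rw [h3]
      simp only [hiff])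
  refine ⟨fun a B W U => ?_, h2⟩
  obtain ⟨N₀, hN₀⟩ := h1 a B W U
  exact ⟨N₀, fun N hN x y hr => hN₀ N hN x y ⟨hr.1, hr.2.1, hr.2.2.1, hr.2.2.2.1, hr.2.2.2.2⟩⟩

end Pool.Agent.Results.MP_dd84fd_nt.SuperpolynomialNeighbourhoods
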